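import Pool.Agent.Lib.MP_17e614_gt.Diag

/-! Negative answer to Q1: a separable metric space `M` and a homotopically unstable point `a`
for which neither (H) nor (R) holds. -/

open Pool.Agent.Lib.MP_17e614_gt in
theorem Pool.Agent.Results.MP_17e614_gt.Counterexample.result :
    ∃ (M : Type) (_ : MetricSpace M) (a : M), TopologicalSpace.SeparableSpace M ∧
      (∀ ε : ℝ, 0 < ε → ∃ h : M × unitInterval → M, Continuous h ∧ (∀ x, h (x, 0) = x) ∧
        (∀ x t, dist x (h (x, t)) < ε) ∧ ∀ x, h (x, 1) ≠ a) ∧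
      (¬ ∃ f : M × unitInterval → M, Continuous f ∧ (∀ x, f (x, 0) = x) ∧
        ∀ x t, t ≠ 0 → f (x, t) ≠ a) ∧
      (¬ ∃ r : M × unitInterval → M × unitInterval, Continuous r ∧ (∀ p, (r p).2 = 0) ∧
        (∀ x, r (x, 0) = (x, 0)) ∧ r ⁻¹' {(a, 0)} = {(a, 0)}) := by
  obtain ⟨z, hz⟩ := exists_not_H
  have hsep : TopologicalSpace.SeparableSpace (Sp z) := inferInstance
  refine ⟨Sp z, UniformSpace.metricSpace (Sp z), ⟨0, zero_mem z⟩, hsep, fun ε hε => ?_, hz, ?_⟩
  · let _ : MetricSpace (Sp z) := UniformSpace.metricSpace (Sp z)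
    exact unstable z _ (Metric.dist_mem_uniformity hε)
  · rintro ⟨r, hr, hr0, hr1, hr2⟩
    refine hz ⟨fun p => (r p).1, continuous_fst.comp hr, fun x => congrArg Prod.fst (hr1 x), fun x t ht h => ?_⟩
    have h1 : (x, t) ∈ r ⁻¹' {((⟨0, zero_mem z⟩ : Sp z), (0 : unitInterval))} :=
      Prod.ext h (hr0 _)
    rw [hr2] at h1
    exact ht (congrArg Prod.snd h1)
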